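import Mathlib

/-!
# Doubly-derived palintiples of shifted-symmetric palintiples have multiplier equal to the base

Let `p = (d_k, ..., d_0)_b` be a shifted-symmetric `(n, b)`-palintiple and let `(0, d_k, ..., d_0, 0)`
be the carries of a `(m, B)`-palintiple with `k + 3` digits.  The column equations give
`d_k = n d_0 + c`, `n d_k = d_0 + b c`, `1 ≤ c < n`, and `m ^ 2 - 1 ∣ d_0 (d_0 + m d_k)`, and
`d_0, d_k < m` because they are carries.  Let `D = gcd (d_0, m ^ 2 - 1)` and
`D (d_0 + m d_k) = r (m ^ 2 - 1)`, so `0 < r ≤ D`, and `w = r m - D d_k`.  Then `D d_0 = w m - r` and,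
with `s = n w - r`, `s D d_0 = r ^ 2 - w ^ 2 - D c w`. As `D ≤ d_0` and `r ≤ D`, only `s = 0` is
possible, and this gives `m = b`.
-/

namespace Pool.Agent.Results.MP_6bbb8b_nt.MultiplierEqualsBase

open Finset

/-- the number `(d_k, ..., d_0)_b` -/
def value (b k : ℕ) (d : ℕ → ℕ) : ℕ := ∑ j ∈ range (k + 1), d j * b ^ j

/-- its reversal `(d_0, d_1, ..., d_k)_b` -/
def revValue (b k : ℕ) (d : ℕ → ℕ) : ℕ := ∑ j ∈ range (k + 1), d (k - j) * b ^ j

/-- The carries `c_0 = 0, c_1, c_2, ...` produced when the reversal of `(d_k, ..., d_0)_b` is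
multiplied by `n` column by column: the `j`-th digit of the reversal is `d_{k-j}`. -/
def carry (n b k : ℕ) (d : ℕ → ℕ) : ℕ → ℕ
  | 0 => 0
  | j + 1 => (n * d (k - j) + carry n b k d j) / b

/-- `(d_k, ..., d_0)_b` is an `(n, b)`-palintiple with `k + 1 ≥ 2` digits: `1 < n < b`, the `d_j`
are base-`b` digits, `d_0 ≠ 0`, and the number is `n` times its reversal. Only the values `d j` with
`j ≤ k` matter. -/
def IsPalintiple (n b k : ℕ) (d : ℕ → ℕ) : Prop :=
  1 < n ∧ n < b ∧ 1 ≤ k ∧ (∀ j ≤ k, d j < b) ∧ d 0 ≠ 0 ∧ value b k d = n * revValue b k d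

/-- The palintiple is shifted-symmetric: `c_j = c_{k-j+1}` for `0 ≤ j ≤ k`. -/
def ShiftedSymmetric (n b k : ℕ) (d : ℕ → ℕ) : Prop :=
  ∀ j ≤ k, carry n b k d j = carry n b k d (k - j + 1)

/-- The `(m, B)`-palintiple `(e_{k+2}, ..., e_0)_B` has carries
`(ĉ_{k+2}, ..., ĉ_0) = (0, d_k, ..., d_0, 0)`. -/
def DerivedCarries (k : ℕ) (d : ℕ → ℕ) (m B : ℕ) (e : ℕ → ℕ) : Prop :=
  carry m B (k + 2) e 0 = 0 ∧ (∀ j ≤ k, carry m B (k + 2) e (j + 1) = d j) ∧
    carry m B (k + 2) e (k + 2) = 0

/-! ### Column equations -/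

theorem digits_unique {b : ℕ} (hb : 0 < b) (f g : ℕ → ℕ) (j : ℕ) (c : ℕ) (hf : ∀ i < j, f i < b)
    (hg : ∀ i < j, g i < b)
    (h : ∑ i ∈ range j, f i * b ^ i = ∑ i ∈ range j, g i * b ^ i + c * b ^ j) :
    c = 0 ∧ ∀ i < j, f i = g i := by
  induction j generalizing f g with
  | zero =>
    simp only [range_zero, sum_empty, pow_zero, mul_one, zero_add] at h
    exact ⟨h.symm, fun i hi => absurd hi (Nat.not_lt_zero i)⟩
  | succ j ih =>
    rw [sum_range_succ', sum_range_succ'] at h
    have h0 : f 0 % b = f 0 := Nat.mod_eq_of_lt (hf 0 (by omega))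
    have h0' : g 0 % b = g 0 := Nat.mod_eq_of_lt (hg 0 (by omega))
    have e1 : ∀ u : ℕ → ℕ, ∑ i ∈ range j, u (i + 1) * b ^ (i + 1)
        = b * ∑ i ∈ range j, u (i + 1) * b ^ i := by
      intro u
      rw [mul_sum]
      exact sum_congr rfl fun i _ => by ring
    rw [e1, e1] at h
    have h1 : f 0 = g 0 := by
      have h2 := congrArg (· % b) h
      simp only [pow_zero, mul_one] at h2
      rw [Nat.mul_add_mod, h0, show b * ∑ i ∈ range j, g (i + 1) * b ^ i + g 0 + c * b ^ (j + 1)
        = b * (∑ i ∈ range j, g (i + 1) * b ^ i + c * b ^ j) + g 0 by ring, Nat.mul_add_mod,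
        h0'] at h2
      exact h2
    have h3 : ∑ i ∈ range j, f (i + 1) * b ^ i
        = ∑ i ∈ range j, g (i + 1) * b ^ i + c * b ^ j := by
      have h4 : b * ∑ i ∈ range j, f (i + 1) * b ^ i
          = b * (∑ i ∈ range j, g (i + 1) * b ^ i + c * b ^ j) := by
        have e2 : b * (∑ i ∈ range j, g (i + 1) * b ^ i + c * b ^ j)
          = b * ∑ i ∈ range j, g (i + 1) * b ^ i + c * b ^ (j + 1) := by ring
        rw [e2]
        simp only [pow_zero, mul_one] at h
        omega
      exact Nat.eq_of_mul_eq_mul_left hb h4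
    obtain ⟨hc, hi⟩ := ih (fun i => f (i + 1)) (fun i => g (i + 1))
      (fun i hi => hf (i + 1) (by omega)) (fun i hi => hg (i + 1) (by omega)) h3
    refine ⟨hc, fun i hij => ?_⟩
    cases i with
    | zero => exact h1
    | succ i => exact hi i (by omega)

theorem carry_sum (n b k : ℕ) (d : ℕ → ℕ) (j : ℕ) :
    n * ∑ i ∈ range j, d (k - i) * b ^ i
      = ∑ i ∈ range j, ((n * d (k - i) + carry n b k d i) % b) * b ^ i
        + carry n b k d j * b ^ j := by
  induction j with
  | zero => simp [carry]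
  | succ j ih =>
    rw [sum_range_succ, sum_range_succ, mul_add, ih]
    have h1 := Nat.mod_add_div (n * d (k - j) + carry n b k d j) b
    have h2 : carry n b k d (j + 1) = (n * d (k - j) + carry n b k d j) / b := rfl
    rw [h2]
    calc ∑ i ∈ range j, ((n * d (k - i) + carry n b k d i) % b) * b ^ i
          + carry n b k d j * b ^ j + n * (d (k - j) * b ^ j)
        = ∑ i ∈ range j, ((n * d (k - i) + carry n b k d i) % b) * b ^ i
          + (n * d (k - j) + carry n b k d j) * b ^ j := by ring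
      _ = ∑ i ∈ range j, ((n * d (k - i) + carry n b k d i) % b) * b ^ i
          + ((n * d (k - j) + carry n b k d j) % b
            + b * ((n * d (k - j) + carry n b k d j) / b)) * b ^ j := by rw [h1]
      _ = _ := by ring

/-- the column equations and the vanishing of the last carry -/
theorem columns {n b k : ℕ} {d : ℕ → ℕ} (h : IsPalintiple n b k d) :
    carry n b k d (k + 1) = 0 ∧
    ∀ j ≤ k, n * d (k - j) + carry n b k d j = d j + b * carry n b k d (j + 1) := by
  obtain ⟨h1, h2, h3, h4, h5, h6⟩ := h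
  have hb : 0 < b := by omega
  unfold value revValue at h6
  rw [carry_sum] at h6
  obtain ⟨hc, hd⟩ := digits_unique hb d (fun i => (n * d (k - i) + carry n b k d i) % b) (k + 1)
    (carry n b k d (k + 1)) (fun i hi => h4 i (by omega)) (fun i _ => Nat.mod_lt _ hb) h6
  refine ⟨hc, fun j hj => ?_⟩
  have e1 := hd j (by omega)
  have e2 := Nat.mod_add_div (n * d (k - j) + carry n b k d j) b
  have e3 : carry n b k d (j + 1) = (n * d (k - j) + carry n b k d j) / b := rfl
  rw [e1, e3, e2]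

theorem carry_lt {n b k : ℕ} {d : ℕ → ℕ} (hn : 0 < n) (hb : 0 < b) (hd : ∀ j ≤ k, d j < b) (j : ℕ) :
    carry n b k d j < n := by
  induction j with
  | zero => exact hn
  | succ j ih =>
    change (n * d (k - j) + carry n b k d j) / b < n
    rw [Nat.div_lt_iff_lt_mul hb]
    have h1 : d (k - j) + 1 ≤ b := hd (k - j) (Nat.sub_le _ _)
    calc n * d (k - j) + carry n b k d j < n * d (k - j) + n := by omega
      _ = n * (d (k - j) + 1) := by ring
      _ ≤ n * b := Nat.mul_le_mul_left _ h1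

/-! ### The Diophantine lemma -/

theorem dioph {n b c d0 dk m : ℤ} (hn : 1 < n) (hc : c < n) (hd0 : 0 < d0)
    (hdk : 0 < dk) (h0m : d0 < m) (hkm : dk < m) (hb : 0 < b)
    (e1 : n * dk = d0 + b * c) (e2 : n * d0 + c = dk)
    (hdvd : (m ^ 2 - 1) ∣ d0 * (d0 + m * dk)) : m = b := by
  have hm : 2 ≤ m := by omega
  have hM : 0 < m ^ 2 - 1 := by nlinarith
  obtain ⟨D, hD⟩ : ∃ D : ℤ, D = (Int.gcd d0 (m ^ 2 - 1) : ℤ) := ⟨_, rfl⟩
  have hD0 : 0 < D := by
    rw [hD]
    exact_mod_cast Int.gcd_pos_of_ne_zero_left _ (by omega)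
  have hDd : D ∣ d0 := by rw [hD]; exact Int.gcd_dvd_left _ _
  have hDle : D ≤ d0 := Int.le_of_dvd hd0 hDd
  have hdvd2 : (m ^ 2 - 1) ∣ D * (d0 + m * dk) := by
    rw [hD, Int.gcd_eq_gcd_ab]
    have : (d0 * d0.gcdA (m ^ 2 - 1) + (m ^ 2 - 1) * d0.gcdB (m ^ 2 - 1)) * (d0 + m * dk)
        = d0 * (d0 + m * dk) * d0.gcdA (m ^ 2 - 1)
          + (m ^ 2 - 1) * (d0.gcdB (m ^ 2 - 1) * (d0 + m * dk)) := by ring
    rw [this]
    exact dvd_add (hdvd.mul_right _) (dvd_mul_right _ _)
  obtain ⟨r, hr⟩ := hdvd2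
  have hhpos : 0 < d0 + m * dk := by positivity
  have hr0 : 0 < r := by
    have : 0 < (m ^ 2 - 1) * r := by rw [← hr]; positivity
    exact (pos_iff_pos_of_mul_pos this).1 hM
  have hrD : r ≤ D := by
    have h1 : d0 + m * dk ≤ m ^ 2 - 1 := by nlinarith
    have h2 : (m ^ 2 - 1) * r ≤ (m ^ 2 - 1) * D := by
      rw [← hr]; nlinarith
    exact le_of_mul_le_mul_left h2 hM
  obtain ⟨w, hw⟩ : ∃ w : ℤ, w = r * m - D * dk := ⟨_, rfl⟩
  have hwm : w * m = D * d0 + r := by rw [hw]; linear_combination (-1) * hr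
  have hw0 : 0 < w := by
    have h1 : 0 < w * m := by rw [hwm]; positivity
    exact (pos_iff_pos_of_mul_pos h1).2 (by omega)
  obtain ⟨s, hs⟩ : ∃ s : ℤ, s = n * w - r := ⟨_, rfl⟩
  have hsm : s * m = n * r - w - D * c := by
    have h1 : D * dk = n * (D * d0) + D * c := by rw [← e2]; ring
    have h2 : D * dk = r * m - w := by rw [hw]; ring
    have h3 : D * d0 = w * m - r := by rw [hwm]; ring
    rw [h2, h3] at h1
    rw [hs]; linear_combination (-1) * h1
  have key : s * (D * d0) = r ^ 2 - w ^ 2 - D * c * w := by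
    have h1 : s * (w * m) = w * (n * r - w - D * c) := by rw [← hsm]; ring
    rw [hwm] at h1
    have h2 : n * w = s + r := by rw [hs]; ring
    linear_combination h1 + r * h2
  have hc0 : 0 < c := by
    by_contra hcon
    push Not at hcon
    have h1 : b * c ≤ 0 := mul_nonpos_of_nonneg_of_nonpos hb.le hcon
    nlinarith
  have hDD : D * D ≤ D * d0 := by nlinarith
  rcases lt_trichotomy s 0 with h | h | h
  · exfalso
    -- `s' = -s = r - n w ≥ 1`
    obtain ⟨s', hs'⟩ : ∃ s' : ℤ, s' = -s := ⟨_, rfl⟩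
    have h1 : 1 ≤ s' := by omega
    have h2 : n * w = r - s' := by rw [hs', hs]; ring
    have h3 : D * (c * w) = r ^ 2 - w ^ 2 + s' * (D * d0) := by rw [hs']; linarith
    have h4 : c * w ≤ r - s' - w := by
      have h40 : c * w ≤ (n - 1) * w := mul_le_mul_of_nonneg_right (by omega) hw0.le
      have h41 : (n - 1) * w = n * w - w := by ring
      linarith
    have h5 : w < r := by
      have h50 : 1 * w ≤ n * w := mul_le_mul_of_nonneg_right hn.le hw0.le
      linarith
    have h6 : D * (c * w) ≤ D * (r - s' - w) := mul_le_mul_of_nonneg_left h4 hD0.le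
    have h7 : D * D ≤ s' * (D * d0) := by
      have h70 : 1 * (D * d0) ≤ s' * (D * d0) :=
        mul_le_mul_of_nonneg_right h1 (mul_pos hD0 hd0).le
      linarith
    have h8 : w ^ 2 < r ^ 2 := pow_lt_pow_left₀ h5 hw0.le (by norm_num)
    have h9 : D * D < D * (r - s' - w) := by linarith
    have h10 := lt_of_mul_lt_mul_left h9 hD0.le
    linarith
  · -- `s = 0`
    rw [h] at hsm
    have h1 : n * r - w = D * c := by linarith
    have h2 : r = n * w := by linarith
    have h3 : D * (b * c) = D * (m * c) := by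
      have h4 : b * c = n * dk - d0 := by linarith
      have h5 : D * dk = r * m - w := by rw [hw]; ring
      have h6 : D * d0 = w * m - r := by rw [hwm]; ring
      calc D * (b * c) = n * (D * dk) - D * d0 := by rw [h4]; ring
        _ = n * (r * m - w) - (w * m - r) := by rw [h5, h6]
        _ = m * (n * r - w) + (r - n * w) := by ring
        _ = D * (m * c) := by rw [h1, ← h2]; ring
    have h4 : b * c = m * c := mul_left_cancel₀ (by omega) h3
    exact (mul_right_cancel₀ (by omega) h4).symm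
  · exfalso
    have h1 : 1 * (D * d0) ≤ s * (D * d0) :=
      mul_le_mul_of_nonneg_right (by omega) (mul_pos hD0 hd0).le
    have h2 : 0 < D * c * w := by positivity
    have h3 : 0 < w ^ 2 := by positivity
    have h4 : r ^ 2 ≤ D * D := by
      have := mul_le_mul hrD hrD hr0.le hD0.le
      rw [sq]; exact this
    linarith

/-- Whenever the carries of a `(k + 3)`-digit `(m, B)`-palintiple are `(0, d_k, ..., d_0, 0)` for a
shifted-symmetric `(n, b)`-palintiple `(d_k, ..., d_0)_b`, then `m = b`. -/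
theorem result (n b k : ℕ) (d : ℕ → ℕ) (m B : ℕ) (e : ℕ → ℕ)
    (hp : IsPalintiple n b k d) (hs : ShiftedSymmetric n b k d)
    (hq : IsPalintiple m B (k + 2) e) (hd : DerivedCarries k d m B e) : m = b := by
  obtain ⟨hlast, hcol⟩ := columns hp
  obtain ⟨hlast', hcol'⟩ := columns hq
  obtain ⟨hn, hnb, hk, hdig, hd0, -⟩ := hp
  obtain ⟨hm, hmB, -, hdig', -, -⟩ := hq
  obtain ⟨-, hder, hder'⟩ := hd
  have hcm := carry_lt (n := m) (by omega) (by omega) hdig'
  -- carries of `p`
  have c1 := hcol 0 (by omega)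
  have c2 := hcol k le_rfl
  have c3 := hs 1 hk
  rw [Nat.sub_zero, zero_add] at c1
  rw [Nat.sub_self, hlast, mul_zero, add_zero] at c2
  rw [show k - 1 + 1 = k by omega] at c3
  have c0 : carry n b k d 0 = 0 := rfl
  rw [c0, add_zero] at c1
  rw [← c3] at c2
  -- carries of the derived palintiple
  have g0 := hcol' 0 (by omega)
  have g1 := hcol' 1 (by omega)
  have g2 := hcol' (k + 1) (by omega)
  have g3 := hcol' (k + 2) le_rfl
  have k0 : carry m B (k + 2) e 0 = 0 := rfl
  have k1 : carry m B (k + 2) e 1 = d 0 := hder 0 (by omega)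
  have k2 : carry m B (k + 2) e (1 + 1) = d 1 := hder 1 (by omega)
  have k3 : carry m B (k + 2) e (k + 1) = d k := hder k le_rfl
  rw [k0, add_zero, Nat.sub_zero, zero_add, k1] at g0
  rw [k1, k2, show k + 2 - 1 = k + 1 by omega] at g1
  rw [k3, show k + 1 + 1 = k + 2 by omega, hder', mul_zero, add_zero,
    show k + 2 - (k + 1) = 1 by omega] at g2
  rw [hder', hlast', mul_zero, add_zero, add_zero, Nat.sub_self] at g3
  have hd0m : d 0 < m := by rw [← k1]; exact hcm 1
  have hdkm : d k < m := by rw [← k3]; exact hcm (k + 1)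
  have hdkpos : 0 < d k := by
    have h1 : n * d 0 ≤ d k := by omega
    have h2 : 0 < n * d 0 := Nat.mul_pos (by omega) (by omega)
    omega
  have hcn : carry n b k d 1 < n := carry_lt (by omega) (by omega) hdig 1
  have hfin : (m : ℤ) = b := by
    refine dioph (n := n) (c := carry n b k d 1) (d0 := d 0) (dk := d k) (by exact_mod_cast hn)
      (by exact_mod_cast hcn) (by exact_mod_cast Nat.pos_of_ne_zero hd0)
      (by exact_mod_cast hdkpos) (by exact_mod_cast hd0m) (by exact_mod_cast hdkm)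
      (by exact_mod_cast (by omega : 0 < b)) (by exact_mod_cast c1) (by exact_mod_cast c2) ?_
    refine ⟨(e 0 : ℤ) * d 1 - e 1 * d 0, ?_⟩
    have q0 : (m : ℤ) * e (k + 2) = e 0 + B * d 0 := by exact_mod_cast g0
    have q1 : (m : ℤ) * e (k + 1) + d 0 = e 1 + B * d 1 := by exact_mod_cast g1
    have q2 : (m : ℤ) * e 1 + d k = e (k + 1) := by exact_mod_cast g2
    have q3 : (m : ℤ) * e 0 = e (k + 2) := by exact_mod_cast g3
    rw [← q3] at q0
    rw [← q2] at q1
    linear_combination (d 0 : ℤ) * q1 - (d 1 : ℤ) * q0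
  exact_mod_cast hfin

end Pool.Agent.Results.MP_6bbb8b_nt.MultiplierEqualsBase
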